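import Pool.Agent.Helper98.EX.Stmts3

/-! # EXCH: the largest window is in the bulk -/

set_option autoImplicit false

namespace Pool.Agent.Helper98.EX

open Finset MeasureTheory ProbabilityTheory Filter
open scoped Topology

/-- permutation invariance of the law of the environment -/
theorem exch_law {Ω : Type} [MeasurableSpace Ω] {P : Measure Ω} {X : ℕ → Ω → ℝ}
    (h : IIDE P X) {g : ℕ → ℕ} (hg : Function.Injective g) {S : Set (ℕ → ℝ)}
    (hS : MeasurableSet S) :
    P {ω | (fun n => X (g n) ω) ∈ S} = P {ω | (fun n => X n ω) ∈ S} := by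
  have := h.prob
  have hm : Measurable (fun ω n => X n ω) := measurable_pi_iff.2 h.meas
  have hm' : Measurable (fun ω n => X (g n) ω) := measurable_pi_iff.2 (fun n => h.meas (g n))
  have h1 : P.map (fun ω n => X n ω) = Measure.infinitePi (fun n => P.map (X n)) :=
    (iIndepFun_iff_map_fun_eq_infinitePi_map h.meas).1 h.indep
  have h2 : P.map (fun ω n => X (g n) ω) = Measure.infinitePi (fun n => P.map (X (g n))) :=
    (iIndepFun_iff_map_fun_eq_infinitePi_map (fun n => h.meas (g n))).1 (h.indep.precomp hg)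
  have h3 : P.map (fun ω n => X (g n) ω) = P.map (fun ω n => X n ω) := by
    rw [h1, h2]
    congr 1
    funext n
    rw [(h.ident (g n)).map_eq, (h.ident n).map_eq]
  have h4 : P.map (fun ω n => X (g n) ω) S = P.map (fun ω n => X n ω) S := by rw [h3]
  rw [Measure.map_apply hm' hS, Measure.map_apply hm hS] at h4
  exact h4

/-- value of a window of an environment; `true`: particle type, `false`: hole type -/
noncomputable def exv (e : ℕ → ℝ) (a : ℕ × ℕ × Bool) : ℝ :=
  if a.2.2 = true then RR (rE e) (lE e) a.1 a.2.1 / e a.2.1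
  else RR (rE e) (lE e) a.1 a.2.1 / e (a.1 - 1)

theorem exch_RR_meas (g : ℕ → ℕ) (z x : ℕ) :
    Measurable (fun e : ℕ → ℝ => RR (rE (fun n => e (g n))) (lE (fun n => e (g n))) z x) := by
  unfold RR rE lE
  refine Finset.measurable_prod _ (fun b _ => ?_)
  exact (measurable_const.sub (measurable_pi_apply _)).div (measurable_pi_apply _)

theorem exch_meas (g : ℕ → ℕ) (a : ℕ × ℕ × Bool) :
    Measurable (fun e : ℕ → ℝ => exv (fun n => e (g n)) a) := by
  unfold exv
  split_ifs
  · exact (exch_RR_meas g _ _).div (measurable_pi_apply _)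
  · exact (exch_RR_meas g _ _).div (measurable_pi_apply _)

/-- windows inside a block of length `L` -/
def exW (L w : ℕ) : Finset (ℕ × ℕ × Bool) :=
  ((Finset.range L) ×ˢ (Finset.range L) ×ˢ Finset.univ).filter
    (fun a => a.1 ≤ a.2.1 ∧ a.2.1 < a.1 + w ∧ (a.2.2 = true ∨ 1 ≤ a.1))

theorem exch_mem {L w : ℕ} {a : ℕ × ℕ × Bool} : a ∈ exW L w ↔
    a.2.1 < L ∧ a.1 ≤ a.2.1 ∧ a.2.1 < a.1 + w ∧ (a.2.2 = true ∨ 1 ≤ a.1) := by
  unfold exW
  simp only [Finset.mem_filter, Finset.mem_product, Finset.mem_range, Finset.mem_univ, and_true]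
  constructor
  · rintro ⟨⟨_, h2⟩, h3⟩
    exact ⟨h2, h3⟩
  · rintro ⟨h2, h3⟩
    exact ⟨⟨lt_of_le_of_lt h3.1 h2, h2⟩, h3⟩

/-- the value only depends on the sites of the block -/
theorem exch_congr {L w : ℕ} {a : ℕ × ℕ × Bool} (ha : a ∈ exW L w) {e e' : ℕ → ℝ}
    (h : ∀ n < L, e n = e' n) : exv e a = exv e' a := by
  rw [exch_mem] at ha
  obtain ⟨h1, h2, h3, h4⟩ := ha
  have hR : RR (rE e) (lE e) a.1 a.2.1 = RR (rE e') (lE e') a.1 a.2.1 := by
    unfold RR rE lE
    refine Finset.prod_congr rfl (fun b hb => ?_)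
    rw [Finset.mem_Ioc] at hb
    rw [h b (by omega), h (b - 1) (by omega)]
  unfold exv
  rw [hR, h a.2.1 h1, h (a.1 - 1) (by omega)]

/-- shift of a window -/
theorem exch_shift (e : ℕ → ℝ) (s : ℕ) (a : ℕ × ℕ × Bool) (ha : a.2.2 = true ∨ 1 ≤ a.1) :
    exv (fun n => e (s + n)) a = exv e (s + a.1, s + a.2.1, a.2.2) := by
  have hR : RR (rE (fun n => e (s + n))) (lE (fun n => e (s + n))) a.1 a.2.1 =
      RR (rE e) (lE e) (s + a.1) (s + a.2.1) := by
    unfold RR rE lE
    rw [← Finset.image_add_left_Ioc, Finset.prod_image (fun x _ y _ h => by simpa using h)]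
    refine Finset.prod_congr rfl (fun b hb => ?_)
    rw [Finset.mem_Ioc] at hb
    have : s + b - 1 = s + (b - 1) := by omega
    rw [this]
  unfold exv
  rw [hR]
  by_cases h : a.2.2 = true
  · simp [h]
  · have h1 := ha.resolve_left h
    have : s + a.1 - 1 = s + (a.1 - 1) := by omega
    simp [h, this]

/-- value of a window in the block `i` -/
noncomputable def exb (e : ℕ → ℝ) (L i : ℕ) (a : ℕ × ℕ × Bool) : ℝ :=
  exv (fun n => e (i * L + n)) a

/-- the block `j` contains a window value exceeding those in the other blocks -/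
def exF (L w : ℕ) (I : Finset ℕ) (j : ℕ) : Set (ℕ → ℝ) :=
  {e | ∃ a ∈ exW L w, ∀ i ∈ I, i ≠ j → ∀ b ∈ exW L w, exb e L i b < exb e L j a}

theorem exch_F_meas (L w : ℕ) (I : Finset ℕ) (j : ℕ) : MeasurableSet (exF L w I j) := by
  have h : exF L w I j = ⋃ a ∈ exW L w, ⋂ i ∈ I, ⋂ (_ : i ≠ j), ⋂ b ∈ exW L w,
      {e | exb e L i b < exb e L j a} := by
    ext e
    simp only [exF, Set.mem_ofPred_eq, Set.mem_iUnion, Set.mem_iInter, exists_prop]
  rw [h]
  refine Finset.measurableSet_biUnion _ (fun a _ => ?_)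
  refine Finset.measurableSet_biInter _ (fun i _ => ?_)
  refine MeasurableSet.iInter (fun _ => ?_)
  refine Finset.measurableSet_biInter _ (fun b _ => ?_)
  exact measurableSet_lt (exch_meas (fun n => i * L + n) b) (exch_meas (fun n => j * L + n) a)

theorem exch_F_disj (L w : ℕ) (I : Finset ℕ) {j j' : ℕ} (hj : j ∈ I) (hj' : j' ∈ I)
    (hne : j ≠ j') : Disjoint (exF L w I j) (exF L w I j') := by
  rw [Set.disjoint_left]
  rintro e ⟨a, ha, h1⟩ ⟨b, hb, h2⟩
  exact lt_asymm (h1 j' hj' hne.symm b hb) (h2 j hj hne a ha)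

/-- transposition -/
def exs (j j' i : ℕ) : ℕ := if i = j then j' else if i = j' then j else i

theorem exch_s_inv (j j' i : ℕ) : exs j j' (exs j j' i) = i := by
  unfold exs
  split_ifs <;> simp_all

/-- exchange of two blocks -/
def exg (L j j' n : ℕ) : ℕ := exs j j' (n / L) * L + n % L

theorem exch_g_at {L : ℕ} {n : ℕ} (hn : n < L) (j j' i : ℕ) :
    exg L j j' (i * L + n) = exs j j' i * L + n := by
  unfold exg
  have h1 : (i * L + n) / L = i := by
    rw [mul_comm, Nat.mul_add_div (by omega), Nat.div_eq_of_lt hn, add_zero]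
  have h2 : (i * L + n) % L = n := by
    rw [mul_comm, Nat.mul_add_mod, Nat.mod_eq_of_lt hn]
  rw [h1, h2]

theorem exch_g_inj {L : ℕ} (hL : 0 < L) (j j' : ℕ) : Function.Injective (exg L j j') := by
  have h : ∀ n, exg L j j' (exg L j j' n) = n := by
    intro n
    have h1 : exg L j j' n = exs j j' (n / L) * L + n % L := rfl
    rw [h1, exch_g_at (Nat.mod_lt _ hL), exch_s_inv, mul_comm]
    exact Nat.div_add_mod n L
  exact Function.LeftInverse.injective h

theorem exch_F_swap {L w : ℕ} {I : Finset ℕ} {j j' : ℕ} (hj : j ∈ I) (hj' : j' ∈ I)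
    (e : ℕ → ℝ) : (fun n => e (exg L j j' n)) ∈ exF L w I j ↔ e ∈ exF L w I j' := by
  have hb : ∀ i, ∀ a ∈ exW L w, exb (fun n => e (exg L j j' n)) L i a = exb e L (exs j j' i) a := by
    intro i a ha
    unfold exb
    refine exch_congr ha (fun n hn => ?_)
    show e (exg L j j' (i * L + n)) = e (exs j j' i * L + n)
    rw [exch_g_at hn]
  have hs : ∀ i ∈ I, exs j j' i ∈ I := by
    intro i hi
    unfold exs
    split_ifs
    · exact hj'
    · exact hj
    · exact hi
  have hsj : exs j j' j = j' := by unfold exs; simp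
  constructor
  · rintro ⟨a, ha, h⟩
    refine ⟨a, ha, fun i hi hij b hb' => ?_⟩
    have h1 := h (exs j j' i) (hs i hi) (fun e' => hij (by
      rw [← exch_s_inv j j' i, e', hsj])) b hb'
    rw [hb _ _ hb', hb _ _ ha, exch_s_inv, hsj] at h1
    exact h1
  · rintro ⟨a, ha, h⟩
    refine ⟨a, ha, fun i hi hij b hb' => ?_⟩
    rw [hb _ _ hb', hb _ _ ha, hsj]
    refine h _ (hs i hi) (fun e' => hij ?_) b hb'
    have h1 := congrArg (exs j j') e'
    rw [exch_s_inv] at h1
    have h2 := exch_s_inv j j' j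
    rw [hsj] at h2
    exact h1.trans h2

theorem exch_F_le {Ω : Type} [MeasurableSpace Ω] {P : Measure Ω} {X : ℕ → Ω → ℝ}
    (h : IIDE P X) {L : ℕ} (hL : 0 < L) (w : ℕ) (I : Finset ℕ) {j : ℕ} (hj : j ∈ I) :
    (I.card : ENNReal) * P {ω | (fun n => X n ω) ∈ exF L w I j} ≤ 1 := by
  have := h.prob
  have hm : Measurable (fun ω n => X n ω) := measurable_pi_iff.2 h.meas
  have h1 : ∀ j' ∈ I, P {ω | (fun n => X n ω) ∈ exF L w I j'} =
      P {ω | (fun n => X n ω) ∈ exF L w I j} := by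
    intro j' hj'
    have h2 := exch_law h (exch_g_inj hL j j') (exch_F_meas L w I j)
    rw [← h2]
    congr 1
    ext ω
    exact (exch_F_swap hj hj' (fun n => X n ω)).symm
  have h2 : ∑ j' ∈ I, P {ω | (fun n => X n ω) ∈ exF L w I j'} =
      (I.card : ENNReal) * P {ω | (fun n => X n ω) ∈ exF L w I j} := by
    rw [Finset.sum_congr rfl h1, Finset.sum_const, nsmul_eq_mul]
  rw [← h2, ← measure_biUnion_finset]
  · exact prob_le_one
  · intro a ha b hb hab
    have := exch_F_disj L w I ha hb hab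
    exact Disjoint.preimage (fun ω n => X n ω) this
  · intro a _
    exact hm (exch_F_meas L w I a)

theorem exch_markov {Ω : Type} [MeasurableSpace Ω] {P : Measure Ω} {f : Ω → ℝ}
    (hf : Measurable f) {c B : ℝ} (hc : 0 < c)
    (h : ∫⁻ ω, ENNReal.ofReal (f ω) ∂P ≤ ENNReal.ofReal B) :
    P {ω | c < f ω} ≤ ENNReal.ofReal (B / c) := by
  have h1 : P {ω | c < f ω} ≤ P {ω | ENNReal.ofReal c ≤ ENNReal.ofReal (f ω)} :=
    measure_mono (fun ω hω => ENNReal.ofReal_le_ofReal (le_of_lt hω))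
  have h2 := mul_meas_ge_le_lintegral (μ := P) hf.ennreal_ofReal (ENNReal.ofReal c)
  have hc' : ENNReal.ofReal c ≠ 0 := by
    rw [Ne, ENNReal.ofReal_eq_zero, not_le]
    exact hc
  rw [ENNReal.ofReal_div_of_pos hc]
  refine h1.trans ?_
  rw [ENNReal.le_div_iff_mul_le (Or.inl hc') (Or.inl ENNReal.ofReal_ne_top), mul_comm]
  exact h2.trans h

/-- probability that one window is large -/
theorem exch_one {Ω : Type} [MeasurableSpace Ω] {P : Measure Ω} {X : ℕ → Ω → ℝ} {θ C : ℝ}
    (h : IIDE P X) (hθ0 : 0 < θ) (hθ1 : θ < 1) (hC : 0 < C)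
    (hM : ∀ z x : ℕ, z ≤ x →
      ∫⁻ ω, ENNReal.ofReal (RR (rE (EE X ω)) (lE (EE X ω)) z x ^ (1 : ℝ)) ∂P ≤
        ENNReal.ofReal (C * θ ^ (x - z)) ∧
      ∫⁻ ω, ENNReal.ofReal ((RR (rE (EE X ω)) (lE (EE X ω)) z x / X x ω) ^ (1 : ℝ)) ∂P ≤
        ENNReal.ofReal (C * θ ^ (x - z)) ∧
      (1 ≤ z → ∫⁻ ω, ENNReal.ofReal ((RR (rE (EE X ω)) (lE (EE X ω)) z x / X (z - 1) ω) ^
        (1 : ℝ)) ∂P ≤ ENNReal.ofReal (C * θ ^ (x - z))))
    {c : ℝ} (hc : 0 < c) {a : ℕ × ℕ × Bool} (ha : a.1 ≤ a.2.1) (ha' : a.2.2 = true ∨ 1 ≤ a.1) :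
    P {ω | c < exv (EE X ω) a} ≤ ENNReal.ofReal (C / c) := by
  have hm : Measurable (fun ω => exv (EE X ω) a) := by
    have h1 : Measurable (fun e : ℕ → ℝ => exv (fun n => e n) a) := exch_meas (fun n => n) a
    exact h1.comp (measurable_pi_iff.2 h.meas)
  refine exch_markov hm hc ?_
  have hle : ENNReal.ofReal (C * θ ^ (a.2.1 - a.1)) ≤ ENNReal.ofReal C := by
    apply ENNReal.ofReal_le_ofReal
    have : θ ^ (a.2.1 - a.1) ≤ 1 := pow_le_one₀ hθ0.le hθ1.le
    nlinarith
  obtain ⟨-, h2, h3⟩ := hM a.1 a.2.1 ha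
  simp only [Real.rpow_one] at h2 h3
  by_cases ht : a.2.2 = true
  · have : ∀ ω, exv (EE X ω) a = RR (rE (EE X ω)) (lE (EE X ω)) a.1 a.2.1 / X a.2.1 ω := by
      intro ω
      unfold exv
      rw [if_pos ht]
      rfl
    simp only [this]
    exact h2.trans hle
  · have : ∀ ω, exv (EE X ω) a = RR (rE (EE X ω)) (lE (EE X ω)) a.1 a.2.1 / X (a.1 - 1) ω := by
      intro ω
      unfold exv
      rw [if_neg ht]
      rfl
    simp only [this]
    exact (h3 (ha'.resolve_left ht)).trans hle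

/-- window values and `WV` -/
theorem exch_WV {Ω : Type} {X : ℕ → Ω → ℝ} {ω : Ω} {z y : ℕ} {v : ℝ} {t : Bool}
    (ht : t = true ∨ 1 ≤ z) (hv : v ≤ exv (EE X ω) (z, y, t)) : WV X ω z y v := by
  unfold exv at hv
  by_cases h : t = true
  · left
    rw [if_pos h] at hv
    exact hv
  · right
    rw [if_neg h] at hv
    exact ⟨ht.resolve_left h, hv⟩

/-- boundary starting points -/
def exB (M L N w : ℕ) : Finset ℕ :=
  (Finset.range M).biUnion (fun i => Finset.Ico ((i + 1) * L - (w + 1)) ((i + 1) * L)) ∪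
    Finset.Ico (M * L) N

theorem exch_B_card (M L N w : ℕ) (h : N < M * L + M) : (exB M L N w).card ≤ M * (w + 2) := by
  unfold exB
  refine (Finset.card_union_le _ _).trans ?_
  have h1 : ((Finset.range M).biUnion
      (fun i => Finset.Ico ((i + 1) * L - (w + 1)) ((i + 1) * L))).card ≤ M * (w + 1) := by
    refine Finset.card_biUnion_le.trans ?_
    calc ∑ i ∈ Finset.range M, (Finset.Ico ((i + 1) * L - (w + 1)) ((i + 1) * L)).card
        ≤ ∑ _i ∈ Finset.range M, (w + 1) := by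
          refine Finset.sum_le_sum (fun i _ => ?_)
          rw [Nat.card_Ico]
          omega
      _ = M * (w + 1) := by rw [Finset.sum_const, Finset.card_range, smul_eq_mul]
  have h2 : (Finset.Ico (M * L) N).card ≤ M := by
    rw [Nat.card_Ico]
    omega
  calc _ ≤ M * (w + 1) + M := Nat.add_le_add h1 h2
    _ = M * (w + 2) := by ring

/-- the boundary event -/
def exE {Ω : Type} (X : ℕ → Ω → ℝ) (M L N w : ℕ) (c : ℝ) : Set Ω :=
  ⋃ s ∈ exB M L N w, ⋃ d ∈ Finset.range w, ({ω | c < exv (EE X ω) (s, s + d, true)} ∪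
    {ω | c < exv (EE X ω) (s + 1, s + 1 + d, false)})

/-- alternatives for a large window value -/
theorem exch_alt {Ω : Type} {X : ℕ → Ω → ℝ} {ω : Ω} {M L N w : ℕ} {c c2 v : ℝ} (hM : 2 ≤ M)
    (hL : 0 < L) (hc2 : c2 * N ≤ L) (hc2' : ((M - 1 : ℕ) : ℝ) * L ≤ (1 - c2) * N)
    {z y s : ℕ} {t : Bool} (hzy : z ≤ y) (hyw : y < z + w) (hyN : y < N)
    (ht : t = true → s = z) (ht' : t = false → s + 1 = z)
    (hv : v ≤ exv (EE X ω) (z, y, t)) (hcv : c < v)
    (hno : ¬ ∃ A B : ℕ, c2 * N ≤ A ∧ A ≤ B ∧ B < A + w ∧ (B : ℝ) + 1 ≤ (1 - c2) * N ∧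
      WV X ω A B v) :
    ω ∈ exE X M L N w c ∨ (fun n => X n ω) ∈ exF L w (Finset.range (M - 1)) 0 ∨
      (fun n => X n ω) ∈ exF L w (Finset.Ico 1 M) (M - 1) := by
  have hsz : s ≤ z ∧ z ≤ s + 1 ∧ (t = true ∨ s + 1 ≤ z) := by
    cases t with
    | true => have := ht rfl; subst this; exact ⟨le_rfl, Nat.le_succ _, Or.inl rfl⟩
    | false => have := ht' rfl; subst this; exact ⟨Nat.le_succ _, le_rfl, Or.inr le_rfl⟩
  obtain ⟨hs1, hs2, hs3⟩ := hsz
  have hbd : s ∈ exB M L N w → ω ∈ exE X M L N w c := by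
    intro hs
    unfold exE
    simp only [Set.mem_iUnion, exists_prop]
    refine ⟨s, hs, y - z, Finset.mem_range.2 (by omega), ?_⟩
    cases t with
    | true =>
      left
      have e1 := ht rfl
      subst e1
      show c < exv (EE X ω) (s, s + (y - s), true)
      rw [Nat.add_sub_cancel' hzy]
      exact lt_of_lt_of_le hcv hv
    | false =>
      right
      have e1 := ht' rfl
      subst e1
      show c < exv (EE X ω) (s + 1, s + 1 + (y - (s + 1)), false)
      rw [Nat.add_sub_cancel' hzy]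
      exact lt_of_lt_of_le hcv hv
  by_cases h1 : M * L ≤ s
  · left
    apply hbd
    unfold exB
    exact Finset.mem_union_right _ (Finset.mem_Ico.2 ⟨h1, by omega⟩)
  · have hdm := Nat.div_add_mod s L
    have hml := Nat.mod_lt s hL
    set i := s / L with hi
    have hiM : i < M := by
      rw [hi, Nat.div_lt_iff_lt_mul hL]
      omega
    have hiL : i * L ≤ s := by rw [mul_comm]; omega
    have hiL' : s < (i + 1) * L := by rw [add_mul, one_mul, mul_comm]; omega
    by_cases h2 : (i + 1) * L ≤ y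
    · left
      apply hbd
      unfold exB
      refine Finset.mem_union_left _ (Finset.mem_biUnion.2 ⟨i, Finset.mem_range.2 hiM, ?_⟩)
      rw [Finset.mem_Ico]
      omega
    · right
      have hbulk : ∀ i', 1 ≤ i' → i' + 2 ≤ M → ∀ b ∈ exW L w, exb (EE X ω) L i' b < v := by
        intro i' h3 h4 b hb
        by_contra hcon
        rw [not_lt] at hcon
        apply hno
        have hb' := exch_mem.1 hb
        unfold exb at hcon
        rw [exch_shift _ _ _ hb'.2.2.2] at hcon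
        refine ⟨i' * L + b.1, i' * L + b.2.1, ?_, by omega, by omega, ?_,
          exch_WV (by rcases hb'.2.2.2 with h | h; exact Or.inl h; right; omega) hcon⟩
        · refine hc2.trans ?_
          have : L ≤ i' * L + b.1 := by nlinarith
          exact_mod_cast this
        · refine le_trans ?_ hc2'
          have : i' * L + b.2.1 + 1 ≤ (M - 1) * L := by
            have h5 : (i' + 1) * L ≤ (M - 1) * L := Nat.mul_le_mul_right L (by omega)
            have h6 := hb'.1
            rw [add_mul, one_mul] at h5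
            omega
          exact_mod_cast this
      have haW : ((z - i * L, y - i * L, t) : ℕ × ℕ × Bool) ∈ exW L w := by
        rw [exch_mem]
        rw [add_mul, one_mul] at h2
        refine ⟨by show y - i * L < L; omega, by show z - i * L ≤ y - i * L; omega,
          by show y - i * L < z - i * L + w; omega, ?_⟩
        rcases hs3 with h | h
        · exact Or.inl h
        · right
          show 1 ≤ z - i * L
          omega
      have haV : v ≤ exb (EE X ω) L i (z - i * L, y - i * L, t) := by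
        unfold exb
        rw [exch_shift _ _ _ (exch_mem.1 haW).2.2.2]
        have e1 : i * L + (z - i * L) = z := by omega
        have e2 : i * L + (y - i * L) = y := by omega
        show v ≤ exv (EE X ω) (i * L + (z - i * L), i * L + (y - i * L), t)
        rw [e1, e2]
        exact hv
      rcases Nat.eq_zero_or_pos i with h0 | h0
      · left
        rw [h0] at haW haV
        refine ⟨_, haW, fun i' hi' hne b hb => ?_⟩
        rw [Finset.mem_range] at hi'
        exact lt_of_lt_of_le (hbulk i' (by omega) (by omega) b hb) haV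
      · rcases Nat.lt_or_ge (i + 1) M with h3 | h3
        · exact absurd haV (not_le.2 (hbulk i h0 (by omega) _ haW))
        · right
          have h4 : i = M - 1 := by omega
          rw [h4] at haW haV
          refine ⟨_, haW, fun i' hi' hne b hb => ?_⟩
          rw [Finset.mem_Ico] at hi'
          exact lt_of_lt_of_le (hbulk i' hi'.1 (by omega) b hb) haV

theorem exch_E_le {Ω : Type} [MeasurableSpace Ω] {P : Measure Ω} {X : ℕ → Ω → ℝ} {c B : ℝ}
    (hB : 0 ≤ B) (h : ∀ a : ℕ × ℕ × Bool, a.1 ≤ a.2.1 → (a.2.2 = true ∨ 1 ≤ a.1) →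
      P {ω | c < exv (EE X ω) a} ≤ ENNReal.ofReal B) (M L N w : ℕ) (hN : N < M * L + M) :
    P (exE X M L N w c) ≤ ENNReal.ofReal (2 * M * (w + 2) * w * B) := by
  unfold exE
  have h1 : ∀ s d : ℕ, P ({ω | c < exv (EE X ω) (s, s + d, true)} ∪
      {ω | c < exv (EE X ω) (s + 1, s + 1 + d, false)}) ≤ ENNReal.ofReal (2 * B) := by
    intro s d
    refine (measure_union_le _ _).trans ?_
    rw [two_mul, ENNReal.ofReal_add hB hB]
    exact add_le_add (h (s, s + d, true) (Nat.le_add_right _ _) (Or.inl rfl))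
      (h (s + 1, s + 1 + d, false) (Nat.le_add_right _ _) (Or.inr (Nat.le_add_left _ _)))
  calc _ ≤ ∑ s ∈ exB M L N w, P (⋃ d ∈ Finset.range w,
        ({ω | c < exv (EE X ω) (s, s + d, true)} ∪
          {ω | c < exv (EE X ω) (s + 1, s + 1 + d, false)})) := measure_biUnion_finset_le _ _
    _ ≤ ∑ s ∈ exB M L N w, ∑ d ∈ Finset.range w, ENNReal.ofReal (2 * B) := by
        refine Finset.sum_le_sum (fun s _ => (measure_biUnion_finset_le _ _).trans ?_)
        exact Finset.sum_le_sum (fun d _ => h1 s d)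
    _ = ((exB M L N w).card : ENNReal) * ((w : ENNReal) * ENNReal.ofReal (2 * B)) := by
        rw [Finset.sum_const, Finset.sum_const, Finset.card_range, nsmul_eq_mul, nsmul_eq_mul]
    _ ≤ ((M * (w + 2) : ℕ) : ENNReal) * ((w : ENNReal) * ENNReal.ofReal (2 * B)) := by
        gcongr
        exact exch_B_card M L N w hN
    _ = ENNReal.ofReal (2 * M * (w + 2) * w * B) := by
        rw [← ENNReal.ofReal_natCast, ← ENNReal.ofReal_natCast,
          ← ENNReal.ofReal_mul (Nat.cast_nonneg _), ← ENNReal.ofReal_mul (Nat.cast_nonneg _)]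
        congr 1
        push_cast
        ring

theorem exch_lim (K γ : ℝ) (hγ : 0 < γ) :
    Tendsto (fun N : ℕ => K * ((Real.log N ^ 2 + 2) * Real.log N ^ 2) / (N : ℝ) ^ γ) atTop
      (𝓝 0) := by
  have h1 : ∀ k : ℕ, Tendsto (fun N : ℕ => Real.log N ^ k / (N : ℝ) ^ γ) atTop (𝓝 0) := by
    intro k
    have h2 := (isLittleO_log_rpow_rpow_atTop (k : ℝ) hγ).tendsto_div_nhds_zero
    have h3 := h2.comp tendsto_natCast_atTop_atTop
    refine h3.congr (fun N => ?_)
    simp only [Function.comp, Real.rpow_natCast]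
  have h2 := ((h1 4).add ((h1 2).const_mul 2)).const_mul K
  simp only [mul_zero, add_zero] at h2
  refine h2.congr (fun N => ?_)
  ring

theorem st_EXCH (hMOM : ST_MOM) : ST_EXCH := by
  intro Ω _ P X θ hI hθ0 hθ1 hMom ηp hηp
  obtain ⟨C, hC, hM⟩ := hMOM Ω P X 1 θ hI le_rfl hθ0 hθ1 hMom
  obtain ⟨M, hM2, hMη⟩ : ∃ M : ℕ, 2 ≤ M ∧ 4 / ηp ≤ ((M - 1 : ℕ) : ℝ) := by
    refine ⟨⌈4 / ηp⌉₊ + 2, by omega, ?_⟩
    have h1 := Nat.le_ceil (4 / ηp)
    have h2 : ((⌈4 / ηp⌉₊ + 2 - 1 : ℕ) : ℝ) = (⌈4 / ηp⌉₊ : ℝ) + 1 := by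
      have : ⌈4 / ηp⌉₊ + 2 - 1 = ⌈4 / ηp⌉₊ + 1 := by omega
      rw [this]
      push_cast
      ring
    rw [h2]
    linarith
  have hM0 : (2 : ℝ) ≤ M := by exact_mod_cast hM2
  refine ⟨1 / (4 * M), by positivity, ?_, fun γ hγ => ?_⟩
  · rw [div_lt_div_iff₀ (by positivity) (by norm_num)]
    linarith
  have hlim := exch_lim (2 * M * C) γ hγ
  obtain ⟨N0, hN0⟩ := Filter.eventually_atTop.1 ((tendsto_order.1 hlim).2 (ηp / 2) (by positivity))
  refine ⟨max N0 (4 * M), fun N w hN hw => ?_⟩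
  have hNN0 : N0 ≤ N := le_trans (le_max_left _ _) hN
  have hN4 : 4 * M ≤ N := le_trans (le_max_right _ _) hN
  have hNpos : 0 < N := by omega
  have hNr : (0 : ℝ) < N := by exact_mod_cast hNpos
  have hcpos : (0 : ℝ) < (N : ℝ) ^ γ := Real.rpow_pos_of_pos hNr γ
  set L := N / M with hLdef
  have hL : 0 < L := Nat.div_pos (by omega) (by omega)
  have hML : M * L ≤ N := Nat.mul_div_le N M
  have hNML : N < M * L + M := by
    have h1 := Nat.div_add_mod N M
    have h2 := Nat.mod_lt N (show 0 < M by omega)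
    rw [← hLdef] at h1
    omega
  have hNMLr : (N : ℝ) < M * L + M := by exact_mod_cast hNML
  have hMLr : (M : ℝ) * L ≤ N := by exact_mod_cast hML
  have hN4r : (4 : ℝ) * M ≤ N := by exact_mod_cast hN4
  have hc2 : 1 / (4 * (M : ℝ)) * N ≤ L := by
    rw [one_div, inv_mul_le_iff₀ (by positivity)]
    nlinarith
  have hMr : ((M - 1 : ℕ) : ℝ) = (M : ℝ) - 1 := by
    rw [Nat.cast_sub (by omega)]
    simp
  have hc2' : ((M - 1 : ℕ) : ℝ) * L ≤ (1 - 1 / (4 * (M : ℝ))) * N := by
    rw [hMr]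
    have h1 : ((M : ℝ) - 1) * L ≤ N - L := by nlinarith
    nlinarith
  have hsub : {ω | ∃ (z y : ℕ) (v : ℝ), z ≤ y ∧ y < z + w ∧ y < N ∧ WV X ω z y v ∧
      (N : ℝ) ^ γ < v ∧ ¬ ∃ A B : ℕ, 1 / (4 * (M : ℝ)) * N ≤ A ∧ A ≤ B ∧ B < A + w ∧
        (B : ℝ) + 1 ≤ (1 - 1 / (4 * (M : ℝ))) * N ∧ WV X ω A B v} ⊆
      exE X M L N w ((N : ℝ) ^ γ) ∪
        ({ω | (fun n => X n ω) ∈ exF L w (Finset.range (M - 1)) 0} ∪
          {ω | (fun n => X n ω) ∈ exF L w (Finset.Ico 1 M) (M - 1)}) := by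
    rintro ω ⟨z, y, v, h1, h2, h3, h4, h5, h6⟩
    rcases h4 with h4 | ⟨hz, h4⟩
    · exact exch_alt (s := z) (t := true) hM2 hL hc2 hc2' h1 h2 h3 (fun _ => rfl)
        (fun h => absurd h (by simp)) (by unfold exv; rw [if_pos rfl]; exact h4) h5 h6
    · exact exch_alt (s := z - 1) (t := false) hM2 hL hc2 hc2' h1 h2 h3
        (fun h => absurd h (by simp)) (fun _ => by omega)
        (by unfold exv; rw [if_neg (by simp)]; exact h4) h5 h6
  have hE : P (exE X M L N w ((N : ℝ) ^ γ)) ≤ ENNReal.ofReal (ηp / 2) := by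
    refine (exch_E_le (B := C / (N : ℝ) ^ γ) (by positivity)
      (fun a ha ha' => exch_one hI hθ0 hθ1 hC hM hcpos ha ha') M L N w hNML).trans ?_
    apply ENNReal.ofReal_le_ofReal
    refine le_trans ?_ (hN0 N hNN0).le
    have h1 : (0 : ℝ) ≤ w := Nat.cast_nonneg w
    have h2 : ((w : ℝ) + 2) * w ≤ (Real.log N ^ 2 + 2) * Real.log N ^ 2 := by
      apply mul_le_mul (by linarith) hw h1 (by positivity)
    calc 2 * (M : ℝ) * (w + 2) * w * (C / (N : ℝ) ^ γ) =
        2 * M * C * (((w : ℝ) + 2) * w) / (N : ℝ) ^ γ := by ring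
      _ ≤ 2 * M * C * ((Real.log N ^ 2 + 2) * Real.log N ^ 2) / (N : ℝ) ^ γ := by
          apply div_le_div_of_nonneg_right _ hcpos.le
          exact mul_le_mul_of_nonneg_left h2 (by positivity)
  have hFb : ∀ (I : Finset ℕ) (j : ℕ), j ∈ I → I.card = M - 1 →
      P {ω | (fun n => X n ω) ∈ exF L w I j} ≤ ENNReal.ofReal (ηp / 4) := by
    intro I j hj hc
    have h1 := exch_F_le hI hL w I hj
    rw [hc] at h1
    have hpos : (0 : ℝ) < ((M - 1 : ℕ) : ℝ) := lt_of_lt_of_le (by positivity) hMη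
    have h2 : P {ω | (fun n => X n ω) ∈ exF L w I j} ≤ 1 / ((M - 1 : ℕ) : ENNReal) := by
      rw [ENNReal.le_div_iff_mul_le, mul_comm]
      · exact h1
      · left
        have : (M - 1 : ℕ) ≠ 0 := by
          intro h0
          rw [h0] at hpos
          simp at hpos
        exact_mod_cast this
      · left
        exact ENNReal.natCast_ne_top _
    refine h2.trans ?_
    rw [← ENNReal.ofReal_natCast, ← ENNReal.ofReal_one, ← ENNReal.ofReal_div_of_pos hpos]
    apply ENNReal.ofReal_le_ofReal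
    rw [div_le_div_iff₀ hpos (by norm_num)]
    rw [div_le_iff₀ hηp] at hMη
    linarith
  calc _ ≤ P (exE X M L N w ((N : ℝ) ^ γ) ∪
        ({ω | (fun n => X n ω) ∈ exF L w (Finset.range (M - 1)) 0} ∪
          {ω | (fun n => X n ω) ∈ exF L w (Finset.Ico 1 M) (M - 1)})) := measure_mono hsub
    _ ≤ ENNReal.ofReal (ηp / 2) + (ENNReal.ofReal (ηp / 4) + ENNReal.ofReal (ηp / 4)) := by
        refine (measure_union_le _ _).trans (add_le_add hE ?_)
        refine (measure_union_le _ _).trans (add_le_add ?_ ?_)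
        · exact hFb _ _ (Finset.mem_range.2 (by omega)) (Finset.card_range _)
        · exact hFb _ _ (Finset.mem_Ico.2 (by omega)) (Nat.card_Ico _ _)
    _ = ENNReal.ofReal ηp := by
        rw [← ENNReal.ofReal_add (by positivity) (by positivity),
          ← ENNReal.ofReal_add (by positivity) (by positivity)]
        congr 1
        ring

end Pool.Agent.Helper98.EX
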